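import Pool.Agent.H25.EE.TargetsA

/-! Row FIN of ee_modules. -/

set_option autoImplicit false

open Polynomial Finset

namespace Pool.Agent.H25.EE5.FIN

open Pool.Agent.H25.EE

private theorem sum_filter (F : Multiset ℤ[X]) (p : ℂ → Prop) [DecidablePred p] (f : ℂ → ℝ) :
    (((F.map rts).sum.filter p).map f).sum =
      (F.map fun R => (((rts R).filter p).map f).sum).sum := by
  induction F using Multiset.induction_on with
  | empty => simp
  | cons R F ih =>
    rw [Multiset.map_cons, Multiset.sum_cons, Multiset.filter_add, Multiset.map_add,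
      Multiset.sum_add, ih, Multiset.map_cons, Multiset.sum_cons]

private theorem sum_le (F : Multiset ℤ[X]) (c A B : ℝ) (Φ : ℤ[X] → ℝ)
    (h : ∀ R ∈ F, c * Φ R ≤ 101 / 100 * (A * hM R + B * R.natDegree)) :
    c * (F.map Φ).sum ≤
      101 / 100 * (A * (F.map hM).sum + B * (F.map fun R => (R.natDegree : ℝ)).sum) := by
  induction F using Multiset.induction_on with
  | empty => simp
  | cons R F ih =>
    have h1 := h R (Multiset.mem_cons_self R F)
    have h2 := ih fun R' hR' => h R' (Multiset.mem_cons_of_mem hR')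
    rw [Multiset.map_cons, Multiset.sum_cons, Multiset.map_cons, Multiset.sum_cons,
      Multiset.map_cons, Multiset.sum_cons]
    linarith

private theorem sum_lin (S : Multiset ℂ) (a b V : ℝ) (f g h : ℂ → ℝ)
    (hfg : ∀ β, V * f β = a * g β + b * h β) :
    V * (S.map f).sum = a * (S.map g).sum + b * (S.map h).sum := by
  induction S using Multiset.induction_on with
  | empty => simp
  | cons x S ih =>
    rw [Multiset.map_cons, Multiset.sum_cons, Multiset.map_cons, Multiset.sum_cons,
      Multiset.map_cons, Multiset.sum_cons, mul_add, ih, hfg]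
    ring

private theorem sum_mono (S : Multiset ℂ) (f g : ℂ → ℝ) (h : ∀ β, f β ≤ g β) :
    (S.map f).sum ≤ (S.map g).sum := by
  induction S using Multiset.induction_on with
  | empty => simp
  | cons x S ih =>
    rw [Multiset.map_cons, Multiset.sum_cons, Multiset.map_cons, Multiset.sum_cons]
    exact add_le_add (h x) ih

private theorem part (S : Multiset ℂ) (t s : ℝ) :
    (S.map fun β => min s (vv β)).sum - ((S.filter fun β => vv β < t).map vv).sum ≤
      ((S.filter fun β => t ≤ vv β).map fun β => min s (vv β)).sum := by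
  have h1 : (S.filter fun β => t ≤ vv β) + (S.filter fun β => ¬ t ≤ vv β) = S :=
    Multiset.filter_add_not _ _
  have h2 : (S.filter fun β => ¬ t ≤ vv β) = (S.filter fun β => vv β < t) := by
    apply Multiset.filter_congr
    intro x _
    exact not_le
  have h3 : (S.map fun β => min s (vv β)).sum =
      ((S.filter fun β => t ≤ vv β).map fun β => min s (vv β)).sum +
      ((S.filter fun β => vv β < t).map fun β => min s (vv β)).sum := by
    conv_lhs => rw [← h1, Multiset.map_add, Multiset.sum_add, h2]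
  have h4 := sum_mono (S.filter fun β => vv β < t) (fun β => min s (vv β)) vv
    (fun β => min_le_right _ _)
  linarith

theorem pf_FIN (hPRF : T_PROF) (hFAC : T_FAC) (hSML : T_SML) (hKEYR : T_KEYR)
    (hNFIN : T_NFIN) (_hGIN : T_GIN) : T_FIN := by
  classical
  intro hFT
  obtain ⟨J0, hJ0⟩ := hFT (1 / 10 ^ 20) (by norm_num)
  obtain ⟨K, hK⟩ := hSML (1 / 10 ^ 20) J0 (by norm_num) (by norm_num) hJ0
  obtain ⟨Jk, hJk⟩ := hKEYR
  obtain ⟨Jn, hJn⟩ := hNFIN K
  obtain ⟨m, hm⟩ : ∃ m : ℕ, m = J0 + Jk + Jn + 2 := ⟨_, rfl⟩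
  have h2m : m < 2 ^ m := Nat.lt_two_pow_self
  obtain ⟨J, hJ⟩ : ∃ J : ℕ, J = 100 * 2 ^ m := ⟨_, rfl⟩
  have hJJ0 : J ≥ J0 := by omega
  obtain ⟨D, hD1, hD2, hD3, hD4⟩ := hJ0 J hJJ0 ee (by
    rw [sub_self, norm_zero]
    exact (Real.exp_pos _).le)
  have hDne : D ≠ 0 := by
    intro h0
    apply hD3
    rw [h0]
    simp [ev, toC]
  obtain ⟨F, hF1, hF2, hF3, hF4, hF5⟩ := hFAC D hDne
  have hJpos : (0 : ℝ) < J := by
    have : 0 < J := by omega
    exact_mod_cast this
  have hlog : 0 < Real.log J := by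
    apply Real.log_pos
    have : 1 < J := by omega
    exact_mod_cast this
  have hVpos : 0 < VJ J := by
    unfold VJ
    positivity
  have hbN : 0 ≤ bN J := by unfold bN; positivity
  have hbH : 0 ≤ bH J := by unfold bH; positivity
  -- upper bound
  have hup := sum_le F (8 / 1265625 * (J : ℝ) ^ 8 * Real.log J) (bN J) (bH J)
    (fun R => (((rts R).filter fun β => thr (2 ^ m) ≤ vv β).map
      fun β => GG (vv β / VJ J)).sum) (by
      intro R hR
      obtain ⟨hRi, hRd, hRh⟩ := hF1 R hR
      refine hJk J (by omega) (2 ^ m) (by omega) (by omega) ?_ R hRi ?_ hRh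
      · intro j hj _
        exact hJ0 j (by omega)
      · intro h0
        apply hD3
        obtain ⟨Q, hQ⟩ := hRd
        rw [hQ]
        unfold ev toC at h0 ⊢
        rw [Polynomial.map_mul, Polynomial.eval_mul, h0, zero_mul])
  rw [← sum_filter, hF4] at hup
  have hup2 : 101 / 100 * (bN J * (F.map hM).sum +
      bH J * (F.map fun R => (R.natDegree : ℝ)).sum) ≤ 101 / 100 * (2 * bN J * bH J) := by
    have h1 : (F.map hM).sum ≤ bH J := by
      refine hF3.trans ?_
      rw [Real.log_le_iff_le_exp (by linarith)]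
      exact hD2
    have h2 : (F.map fun R => (R.natDegree : ℝ)).sum ≤ bN J := by rw [hF2]; exact hD1
    have h3 := mul_le_mul_of_nonneg_left h1 hbN
    have h4 := mul_le_mul_of_nonneg_left h2 hbH
    nlinarith
  -- lower bounds
  have hsml := hK J m D (by omega) (by omega) hD3 hD1 hD2
  have hlow : ∀ s : ℝ, 0 ≤ s → phi (1 / 10 ^ 20) J s -
      D.natDegree * Real.log (8 * ((D.natDegree : ℝ) + 1)) -
      (K * (J : ℝ) ^ 6 + 3 / 20000 * ((2 ^ m : ℕ) : ℝ) ^ 2 * (J : ℝ) ^ 6 * Real.log J) ≤
      (((rts D).filter fun β => thr (2 ^ m) ≤ vv β).map fun β => min s (vv β)).sum := by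
    intro s hs
    have h1 := hPRF D D.natDegree s (phi (1 / 10 ^ 20) J s) le_rfl hs hD3
      (fun x hx => hD4 s hs x hx)
    have h2 := part (rts D) (thr (2 ^ m)) s
    push_cast
    linarith
  have hlow1 := hlow (93 / 245 * VJ J) (by positivity)
  have hlow2 := hlow (147 / 155 * VJ J) (by positivity)
  have hGG := sum_lin ((rts D).filter fun β => thr (2 ^ m) ≤ vv β) (49 / 100) (31 / 100) (VJ J)
    (fun β => GG (vv β / VJ J)) (fun β => min (93 / 245 * VJ J) (vv β))
    (fun β => min (147 / 155 * VJ J) (vv β)) (by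
      intro β
      have key : ∀ s : ℝ, VJ J * min (vv β / VJ J) s = min (s * VJ J) (vv β) := by
        intro s
        rw [mul_min_of_nonneg _ _ hVpos.le, mul_div_cancel₀ _ hVpos.ne', min_comm, mul_comm s]
      simp only [GG]
      rw [mul_add, mul_left_comm, key, mul_left_comm, key])
  have hfin := hJn J (by omega) D.natDegree (2 ^ m) hD1 (by
    rw [hJ]
    push_cast
    exact le_rfl)
  have hc : 8 / 1265625 * (J : ℝ) ^ 8 * Real.log J = 2 / 1125 * (J : ℝ) ^ 4 * VJ J := by
    unfold VJ
    ring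
  have hl4 : 0 < 2 / 1125 * (J : ℝ) ^ 4 := by positivity
  rw [hc, mul_assoc, hGG] at hup
  have h9 := mul_le_mul_of_nonneg_left hlow1 (show (0 : ℝ) ≤ 49 / 100 by norm_num)
  have h10 := mul_le_mul_of_nonneg_left hlow2 (show (0 : ℝ) ≤ 31 / 100 by norm_num)
  have h11 := mul_le_mul_of_nonneg_left (add_le_add h9 h10) hl4.le
  linarith

end Pool.Agent.H25.EE5.FIN
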