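import Pool.Agent.H25.EE.TargetsB

/-! Row GAM of ee_modules. -/

set_option autoImplicit false

open Polynomial Finset

namespace Pool.Agent.H25.EE5.GAM

open Pool.Agent.H25.EE

/-- comparison with the exponential series -/
private theorem gt_le (C0 ρ : ℝ) (hρ : 1 ≤ ρ) (J n : ℕ) :
    gt C0 ρ J n ≤ Real.exp (C0 * (J : ℝ) ^ 2) * ((2 * J ^ 2).factorial : ℝ) * Real.exp 1 *
      ((Real.exp 1 * (ρ * J) ^ 2) ^ n / n.factorial) := by
  have hx : (0 : ℝ) ≤ ρ * J := by positivity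
  have h1 := Real.pow_div_factorial_le_exp ((n : ℝ) + 1) (by positivity) (2 * J ^ 2)
  rw [div_le_iff₀ (by positivity)] at h1
  have h2 : Real.exp ((n : ℝ) + 1) = Real.exp 1 ^ n * Real.exp 1 := by
    rw [Real.exp_add, ← Real.exp_nat_mul, mul_one]
  rw [h2] at h1
  unfold gt
  have h3 : (ρ * (J : ℝ)) ^ (2 * n) = ((ρ * J) ^ 2) ^ n := by rw [pow_mul]
  have h5 : (Real.exp 1 * (ρ * (J : ℝ)) ^ 2) ^ n = Real.exp 1 ^ n * ((ρ * J) ^ 2) ^ n :=
    mul_pow _ _ n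
  rw [h3, h5]
  have h4 : 0 ≤ Real.exp (C0 * (J : ℝ) ^ 2) * ((ρ * J) ^ 2) ^ n / n.factorial := by positivity
  calc Real.exp (C0 * (J : ℝ) ^ 2) * ((n : ℝ) + 1) ^ (2 * J ^ 2) * ((ρ * J) ^ 2) ^ n /
        n.factorial
      = Real.exp (C0 * (J : ℝ) ^ 2) * ((ρ * J) ^ 2) ^ n / n.factorial *
        ((n : ℝ) + 1) ^ (2 * J ^ 2) := by ring
    _ ≤ Real.exp (C0 * (J : ℝ) ^ 2) * ((ρ * J) ^ 2) ^ n / n.factorial *
        (Real.exp 1 ^ n * Real.exp 1 * ((2 * J ^ 2).factorial : ℝ)) :=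
        mul_le_mul_of_nonneg_left h1 h4
    _ = _ := by ring

private theorem gt_nonneg (C0 ρ : ℝ) (hρ : 1 ≤ ρ) (J n : ℕ) : 0 ≤ gt C0 ρ J n := by
  unfold gt
  positivity

private theorem gt_summable (C0 ρ : ℝ) (hρ : 1 ≤ ρ) (J : ℕ) : Summable (gt C0 ρ J) := by
  refine Summable.of_nonneg_of_le (gt_nonneg C0 ρ hρ J) (gt_le C0 ρ hρ J) ?_
  exact (Real.summable_pow_div_factorial _).mul_left _

/-- bound for a tail -/
private theorem tail_le (C0 ρ : ℝ) (hρ : 1 ≤ ρ) (J l : ℕ) :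
    ∑' n, gt C0 ρ J (n + l) ≤ Real.exp (C0 * (J : ℝ) ^ 2) * ((2 * J ^ 2).factorial : ℝ) *
      Real.exp 1 * Real.exp (Real.exp 1 * (ρ * J) ^ 2) *
      ((Real.exp 1 * (ρ * J) ^ 2) ^ l / l.factorial) := by
  set A : ℝ := Real.exp (C0 * (J : ℝ) ^ 2) * ((2 * J ^ 2).factorial : ℝ) * Real.exp 1 with hA
  set y : ℝ := Real.exp 1 * (ρ * J) ^ 2 with hy
  have hA0 : 0 ≤ A := by positivity
  have hy0 : 0 ≤ y := by positivity
  have hsum := (summable_nat_add_iff l).mpr (gt_summable C0 ρ hρ J)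
  have hs2 : Summable (fun n : ℕ => A * (y ^ l / l.factorial) * (y ^ n / n.factorial)) :=
    (Real.summable_pow_div_factorial y).mul_left _
  have hle : ∀ n : ℕ, gt C0 ρ J (n + l) ≤ A * (y ^ l / l.factorial) * (y ^ n / n.factorial) := by
    intro n
    refine (gt_le C0 ρ hρ J (n + l)).trans ?_
    rw [mul_assoc A]
    apply mul_le_mul_of_nonneg_left _ hA0
    rw [div_mul_div_comm, ← pow_add, add_comm l n]
    apply div_le_div_of_nonneg_left (by positivity) (by positivity)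
    have h1 : n.factorial * l.factorial ≤ (n + l).factorial :=
      Nat.le_of_dvd (Nat.factorial_pos _) (Nat.factorial_mul_factorial_dvd_factorial_add n l)
    have h2 : (l.factorial : ℝ) * n.factorial = ((n.factorial * l.factorial : ℕ) : ℝ) := by
      push_cast
      ring
    rw [h2]
    exact_mod_cast h1
  calc ∑' n, gt C0 ρ J (n + l)
      ≤ ∑' n : ℕ, A * (y ^ l / l.factorial) * (y ^ n / n.factorial) :=
        Summable.tsum_le_tsum hle hsum hs2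
    _ = A * (y ^ l / l.factorial) * Real.exp y := by
        rw [tsum_mul_left, Real.exp_eq_exp_ℝ, NormedSpace.exp_eq_tsum_div]
    _ = _ := by ring

/-- logarithmic form of one factor -/
private theorem fac_le (ρ : ℝ) (hρ : 1 ≤ ρ) (J l : ℕ) (hJ : 1 ≤ J) (hl : l ≤ J ^ 4) :
    (Real.exp 1 * (ρ * J) ^ 2) ^ l / l.factorial ≤
      Real.exp ((2 + 2 * Real.log ρ) * l - 2 * l * Real.log J + (J : ℝ) ^ 4) := by
  have hJr : (1 : ℝ) ≤ J := by exact_mod_cast hJ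
  have hJ0 : (0 : ℝ) < J := by linarith
  have hρ0 : (0 : ℝ) < ρ := by linarith
  rcases Nat.eq_zero_or_pos l with h0 | h0
  · subst h0
    simp only [pow_zero, Nat.factorial_zero, Nat.cast_one, div_one, Nat.cast_zero, mul_zero,
      zero_mul, sub_zero, zero_add]
    exact Real.one_le_exp (by positivity)
  · have hl0 : (0 : ℝ) < l := by exact_mod_cast h0
    have h1 := Real.pow_div_factorial_le_exp (l : ℝ) hl0.le l
    have h2 : (1 : ℝ) / l.factorial ≤ Real.exp l / (l : ℝ) ^ l := by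
      rw [div_le_div_iff₀ (by positivity) (by positivity)]
      rw [div_le_iff₀ (by positivity)] at h1
      linarith
    have h3 : (Real.exp 1 * (ρ * J) ^ 2) ^ l / l.factorial ≤
        (Real.exp 1 * (ρ * J) ^ 2) ^ l * (Real.exp l / (l : ℝ) ^ l) := by
      rw [div_eq_mul_one_div]
      exact mul_le_mul_of_nonneg_left h2 (by positivity)
    refine h3.trans ?_
    have h4 : (Real.exp 1 * (ρ * J) ^ 2) ^ l = Real.exp (l * (1 + 2 * (Real.log ρ +
        Real.log J))) := by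
      rw [Real.exp_nat_mul]
      congr 1
      rw [Real.exp_add]
      congr 1
      rw [two_mul, Real.exp_add, ← Real.log_mul hρ0.ne' hJ0.ne', Real.exp_log (by positivity)]
      ring
    have h5 : (l : ℝ) ^ l = Real.exp (l * Real.log l) := by
      rw [Real.exp_nat_mul, Real.exp_log hl0]
    rw [h4, h5, ← Real.exp_sub, ← Real.exp_add]
    apply Real.exp_le_exp.mpr
    -- l log (J^4 / l) ≤ J^4
    have h6 : Real.log ((J : ℝ) ^ 4 / l) ≤ (J : ℝ) ^ 4 / l - 1 :=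
      Real.log_le_sub_one_of_pos (by positivity)
    rw [Real.log_div (by positivity) hl0.ne', Real.log_pow] at h6
    have h7 := mul_le_mul_of_nonneg_left h6 hl0.le
    have h8 : (l : ℝ) * ((J : ℝ) ^ 4 / l - 1) = (J : ℝ) ^ 4 - l := by
      field_simp
    rw [h8] at h7
    push_cast at h7
    nlinarith

theorem pf_GAM : T_GAM := by
  intro C0 ρ hC0 hρ
  have hlρ : 0 ≤ Real.log ρ := Real.log_nonneg hρ
  refine ⟨(C0 + 4 + 1 + Real.exp 1 * ρ ^ 2) + (2 + 2 * Real.log ρ) + 2, 1, ?_⟩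
  intro J hJ
  refine ⟨gt_summable C0 ρ hρ J, ?_⟩
  intro m hm
  have hJr : (1 : ℝ) ≤ J := by exact_mod_cast hJ
  have hJ0 : (0 : ℝ) < J := by linarith
  have hJ2 : (1 : ℝ) ≤ (J : ℝ) ^ 2 := one_le_pow₀ hJr
  have hJ4 : (1 : ℝ) ≤ (J : ℝ) ^ 4 := one_le_pow₀ hJr
  have hJ24 : (J : ℝ) ^ 2 ≤ (J : ℝ) ^ 4 := pow_le_pow_right₀ hJr (by norm_num)
  have hJ48 : (J : ℝ) ^ 4 * (J : ℝ) ^ 4 = (J : ℝ) ^ 8 := by ring
  have hmr : (m : ℝ) ≤ (J : ℝ) ^ 4 := by exact_mod_cast hm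
  have hm0 : (0 : ℝ) ≤ m := Nat.cast_nonneg m
  have hlog : Real.log J ≤ (J : ℝ) ^ 4 := by
    have h1 := Real.log_le_sub_one_of_pos hJ0
    have h2 : (J : ℝ) ≤ (J : ℝ) ^ 4 := le_self_pow₀ hJr (by norm_num)
    linarith
  have hlog0 : 0 ≤ Real.log J := Real.log_nonneg hJr
  -- the constant factor
  set B : ℝ := C0 + 4 + 1 + Real.exp 1 * ρ ^ 2 with hB
  have hB0 : 0 ≤ B := by positivity
  have hfacl : ((2 * J ^ 2).factorial : ℝ) ≤ Real.exp (4 * (J : ℝ) ^ 4) := by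
    have h1 : ((2 * J ^ 2).factorial : ℝ) ≤ ((2 * J ^ 2 : ℕ) : ℝ) ^ (2 * J ^ 2) := by
      exact_mod_cast Nat.factorial_le_pow (2 * J ^ 2)
    refine h1.trans ?_
    have h2 : (0 : ℝ) < ((2 * J ^ 2 : ℕ) : ℝ) := by
      push_cast
      positivity
    have h3 : ((2 * J ^ 2 : ℕ) : ℝ) ≤ Real.exp ((2 * J ^ 2 : ℕ) : ℝ) := by
      have := Real.add_one_le_exp ((2 * J ^ 2 : ℕ) : ℝ)
      linarith
    calc ((2 * J ^ 2 : ℕ) : ℝ) ^ (2 * J ^ 2)
        ≤ Real.exp ((2 * J ^ 2 : ℕ) : ℝ) ^ (2 * J ^ 2) := pow_le_pow_left₀ h2.le h3 _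
      _ = Real.exp (4 * (J : ℝ) ^ 4) := by
        rw [← Real.exp_nat_mul]
        congr 1
        push_cast
        ring
  have hconst : Real.exp (C0 * (J : ℝ) ^ 2) * ((2 * J ^ 2).factorial : ℝ) *
      Real.exp 1 * Real.exp (Real.exp 1 * (ρ * J) ^ 2) ≤ Real.exp (B * (J : ℝ) ^ 4) := by
    calc Real.exp (C0 * (J : ℝ) ^ 2) * ((2 * J ^ 2).factorial : ℝ) *
          Real.exp 1 * Real.exp (Real.exp 1 * (ρ * J) ^ 2)
        ≤ Real.exp (C0 * (J : ℝ) ^ 2) * Real.exp (4 * (J : ℝ) ^ 4) *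
          Real.exp 1 * Real.exp (Real.exp 1 * (ρ * J) ^ 2) := by
          gcongr
      _ = Real.exp (C0 * (J : ℝ) ^ 2 + 4 * (J : ℝ) ^ 4 + 1 + Real.exp 1 * (ρ * J) ^ 2) := by
          rw [← Real.exp_add, ← Real.exp_add, ← Real.exp_add]
      _ ≤ Real.exp (B * (J : ℝ) ^ 4) := by
          apply Real.exp_le_exp.mpr
          have h1 : C0 * (J : ℝ) ^ 2 ≤ C0 * (J : ℝ) ^ 4 := mul_le_mul_of_nonneg_left hJ24 hC0
          have h2 : Real.exp 1 * (ρ * J) ^ 2 ≤ Real.exp 1 * ρ ^ 2 * (J : ℝ) ^ 4 := by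
            rw [mul_pow, ← mul_assoc]
            exact mul_le_mul_of_nonneg_left hJ24 (by positivity)
          rw [hB]
          linarith
  -- one factor
  have hone : ∀ l ∈ range m, ∑' n, gt C0 ρ J (n + l) ≤
      Real.exp (B * (J : ℝ) ^ 4 + ((2 + 2 * Real.log ρ) * l - 2 * l * Real.log J +
        (J : ℝ) ^ 4)) := by
    intro l hl
    rw [mem_range] at hl
    refine (tail_le C0 ρ hρ J l).trans ?_
    rw [Real.exp_add]
    apply mul_le_mul hconst (fac_le ρ hρ J l hJ (by omega)) (by positivity) (by positivity)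
  have hprod : ∏ l ∈ range m, (∑' n, gt C0 ρ J (n + l)) ≤
      ∏ l ∈ range m, Real.exp (B * (J : ℝ) ^ 4 + ((2 + 2 * Real.log ρ) * l -
        2 * l * Real.log J + (J : ℝ) ^ 4)) := by
    apply Finset.prod_le_prod
    · intro l _
      exact tsum_nonneg fun n => gt_nonneg C0 ρ hρ J (n + l)
    · exact hone
  refine hprod.trans ?_
  rw [← Real.exp_sum]
  apply Real.exp_le_exp.mpr
  have hsum : ∑ l ∈ range m, (B * (J : ℝ) ^ 4 + ((2 + 2 * Real.log ρ) * l -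
      2 * l * Real.log J + (J : ℝ) ^ 4)) = m * (B * (J : ℝ) ^ 4 + (J : ℝ) ^ 4) +
      (1 + Real.log ρ - Real.log J) * ((m : ℝ) ^ 2 - m) := by
    have hg : ∀ m : ℕ, ∑ l ∈ range m, (B * (J : ℝ) ^ 4 + ((2 + 2 * Real.log ρ) * l -
      2 * l * Real.log J + (J : ℝ) ^ 4)) = m * (B * (J : ℝ) ^ 4 + (J : ℝ) ^ 4) +
      (1 + Real.log ρ - Real.log J) * ((m : ℝ) ^ 2 - m) := by
      intro m
      induction m with
      | zero => simp
      | succ k ih =>
        rw [sum_range_succ, ih]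
        push_cast
        ring
    exact hg m
  rw [hsum]
  have hm2 : (m : ℝ) ^ 2 ≤ (J : ℝ) ^ 8 := by
    rw [← hJ48]
    nlinarith
  have hmJ : (m : ℝ) * (J : ℝ) ^ 4 ≤ (J : ℝ) ^ 8 := by
    rw [← hJ48]
    exact mul_le_mul_of_nonneg_right hmr (by positivity)
  have hml : (m : ℝ) * Real.log J ≤ (J : ℝ) ^ 8 := by
    rw [← hJ48]
    exact mul_le_mul hmr hlog hlog0 (by positivity)
  have e1 : (B + 1) * ((m : ℝ) * (J : ℝ) ^ 4) ≤ (B + 1) * (J : ℝ) ^ 8 :=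
    mul_le_mul_of_nonneg_left hmJ (by linarith)
  have e2 : (1 + Real.log ρ) * ((m : ℝ) ^ 2 - m) ≤ (1 + Real.log ρ) * (J : ℝ) ^ 8 := by
    apply mul_le_mul_of_nonneg_left _ (by linarith)
    linarith
  have e3 : 0 ≤ (1 + Real.log ρ) * (J : ℝ) ^ 8 := by positivity
  nlinarith

end Pool.Agent.H25.EE5.GAM
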