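import Pool.Agent.H25.EE.TargetsB

/-! Row MAIN of ee_modules. -/

set_option autoImplicit false

open Polynomial Finset

namespace Pool.Agent.H25.EE5.MAIN

open Pool.Agent.H25.EE

private def RE (t : ℝ) : Prop := ∃ u v : ℕ, 0 < u ∧ 0 < v ∧ Real.exp t = u / v

private theorem RE_of_rat {t : ℝ} (h : ∃ y : ℚ, Real.exp t = y) : RE t := by
  obtain ⟨y, hy⟩ := h
  have hpos : (0 : ℝ) < y := by rw [← hy]; exact Real.exp_pos t
  have hy0 : 0 < y := by exact_mod_cast hpos
  have hn : 0 < y.num := Rat.num_pos.mpr hy0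
  refine ⟨y.num.toNat, y.den, by omega, y.den_pos, ?_⟩
  rw [hy]
  have h1 : ((y.num.toNat : ℕ) : ℝ) = (y.num : ℝ) := by
    have : ((y.num.toNat : ℕ) : ℤ) = y.num := Int.toNat_of_nonneg hn.le
    exact_mod_cast this
  rw [h1]
  exact Rat.cast_def y

private theorem RE_add {s t : ℝ} (hs : RE s) (ht : RE t) : RE (s + t) := by
  obtain ⟨u, v, hu, hv, h⟩ := hs
  obtain ⟨u', v', hu', hv', h'⟩ := ht
  refine ⟨u * u', v * v', Nat.mul_pos hu hu', Nat.mul_pos hv hv', ?_⟩
  rw [Real.exp_add, h, h']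
  push_cast
  rw [div_mul_div_comm]

private theorem RE_nat {t : ℝ} (ht : RE t) (n : ℕ) : RE (n * t) := by
  obtain ⟨u, v, hu, hv, h⟩ := ht
  refine ⟨u ^ n, v ^ n, pow_pos hu n, pow_pos hv n, ?_⟩
  rw [Real.exp_nat_mul, h]
  push_cast
  rw [div_pow]

private theorem RE_neg {t : ℝ} (ht : RE t) : RE (-t) := by
  obtain ⟨u, v, hu, hv, h⟩ := ht
  refine ⟨v, u, hv, hu, ?_⟩
  rw [Real.exp_neg, h, inv_div]

private theorem RE_int {t : ℝ} (ht : RE t) (n : ℤ) : RE (n * t) := by
  obtain ⟨m, rfl | rfl⟩ := n.eq_nat_or_neg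
  · exact_mod_cast RE_nat ht m
  · have h := RE_neg (RE_nat ht m)
    push_cast
    rw [neg_mul]
    exact h

theorem pf_MAIN (hFOUR : T_FOUR) (hLNZ : T_LNZ) : T_MAIN := by
  intro r a b c d f g h hr hdet hag hcg ⟨hY, hZ⟩
  have hE := RE_of_rat hY
  have hW := RE_of_rat hZ
  set E : ℝ := r * Real.exp 1 with hEdef
  set p : ℤ := r.num with hp
  set q : ℤ := (r.den : ℤ) with hq
  have hq0 : q ≠ 0 := by
    rw [hq]
    exact_mod_cast r.den_ne_zero
  have hp0 : p ≠ 0 := Rat.num_ne_zero.mpr hr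
  have hqR : (q : ℝ) ≠ 0 := by exact_mod_cast hq0
  have hqE : (q : ℝ) * E = p * Real.exp 1 := by
    have h1 : (q : ℝ) * (r : ℝ) = (p : ℝ) := by
      have : (r : ℝ) = (p : ℝ) / (q : ℝ) := by
        rw [hp, hq, Int.cast_natCast]
        exact Rat.cast_def r
      rw [this]
      field_simp
    rw [hEdef, ← mul_assoc, h1]
  set δ : ℤ := a * c + f * h with hδ
  have hδ2 : (δ : ℝ) * δ = 1 := by
    have : δ * δ = 1 := by rw [← hdet]; ring
    exact_mod_cast this
  have hfg : (q * f, p * g) ≠ ((0, 0) : ℤ × ℤ) := by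
    intro h0
    rw [Prod.mk.injEq] at h0
    have hf : f = 0 := by
      rcases mul_eq_zero.mp h0.1 with h1 | h1
      · exact absurd h1 hq0
      · exact h1
    have hg : g = 0 := by
      rcases mul_eq_zero.mp h0.2 with h1 | h1
      · exact absurd h1 hp0
      · exact h1
    apply hag
    rw [hf, hg]
    ring
  have linv : ∀ u v : ℤ, lin (q * u, p * v) = q * (u + v * E) := by
    intro u v
    unfold lin
    push_cast
    have : (p : ℝ) * v * Real.exp 1 = v * (q * E) := by rw [hqE]; ring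
    rw [this]
    ring
  have hF : (f : ℝ) + g * E ≠ 0 := by
    intro h0
    have h1 := hLNZ (q * f, p * g) hfg
    rw [linv, h0, mul_zero] at h1
    exact h1 rfl
  have linB : lin (q, 0) = q := by
    unfold lin
    simp
  have liny1 : lin (0, δ * p * (c * g - d * f)) = q * (δ * (c * g - d * f) * E) := by
    unfold lin
    push_cast
    have : (δ : ℝ) * p * (c * g - d * f) * Real.exp 1 = δ * (c * g - d * f) * (q * E) := by
      rw [hqE]; ring
    rw [this]
    ring
  have liny2 : lin (q, δ * p * (h * g + a * d)) = q * (1 + δ * (h * g + a * d) * E) := by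
    unfold lin
    push_cast
    have : (δ : ℝ) * p * (h * g + a * d) * Real.exp 1 = δ * (h * g + a * d) * (q * E) := by
      rw [hqE]; ring
    rw [this]
    ring
  set ω : ℝ := ((a : ℝ) + b * E) * (c + d * E) / (f + g * E) + h with hω
  have hωF : ω * (f + g * E) = (a + b * E) * (c + d * E) + h * (f + g * E) := by
    rw [hω, add_mul, div_mul_cancel₀ _ hF]
  have hδr : (δ : ℝ) = a * c + f * h := by
    rw [hδ]
    push_cast
    ring
  have r11 : lin (q * a, p * b) * lin (0, δ * p * (c * g - d * f)) /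
      (lin (q * f, p * g) * lin (q, 0)) - 1 = ((δ * b * c : ℤ) : ℝ) * E +
      ((-(δ * f) : ℤ) : ℝ) * ω := by
    rw [linv, linv, linB, liny1, sub_eq_iff_eq_add, div_eq_iff (by positivity)]
    push_cast
    linear_combination ((q : ℝ) ^ 2 * δ * f) * hωF + ((q : ℝ) ^ 2 * (f + g * E)) * hδ2 -
      ((q : ℝ) ^ 2 * δ * (f + g * E)) * hδr
  have r12 : lin (q * a, p * b) * lin (q, δ * p * (h * g + a * d)) /
      (lin (q * f, p * g) * lin (q, 0)) = ((δ * b * h : ℤ) : ℝ) * E +
      ((δ * a : ℤ) : ℝ) * ω := by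
    rw [linv, linv, linB, liny2, div_eq_iff (by positivity)]
    push_cast
    linear_combination (-(q : ℝ) ^ 2 * δ * a) * hωF - ((q : ℝ) ^ 2 * (a + b * E)) * hδ2 +
      ((q : ℝ) ^ 2 * δ * (a + b * E)) * hδr
  have r21 : lin (q * f, p * g) * lin (0, δ * p * (c * g - d * f)) /
      (lin (q * f, p * g) * lin (q, 0)) = ((δ * (c * g - d * f) : ℤ) : ℝ) * E := by
    rw [linv, linB, liny1, div_eq_iff (by positivity)]
    push_cast
    ring
  have r22 : lin (q * f, p * g) * lin (q, δ * p * (h * g + a * d)) /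
      (lin (q * f, p * g) * lin (q, 0)) - 1 = ((δ * (h * g + a * d) : ℤ) : ℝ) * E := by
    rw [linv, linB, liny2, sub_eq_iff_eq_add, div_eq_iff (by positivity)]
    push_cast
    ring
  obtain ⟨u11, v11, hu11, hv11, e11⟩ := RE_add (RE_int hE (δ * b * c)) (RE_int hW (-(δ * f)))
  obtain ⟨u12, v12, hu12, hv12, e12⟩ := RE_add (RE_int hE (δ * b * h)) (RE_int hW (δ * a))
  obtain ⟨u21, v21, hu21, hv21, e21⟩ := RE_int hE (δ * (c * g - d * f))
  obtain ⟨u22, v22, hu22, hv22, e22⟩ := RE_int hE (δ * (h * g + a * d))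
  have hδ0 : δ ≠ 0 := by
    intro h0
    rw [h0] at hδ2
    norm_num at hδ2
  refine hFOUR
    { x1 := (q * a, p * b)
      x2 := (q * f, p * g)
      y1 := (0, δ * p * (c * g - d * f))
      y2 := (q, δ * p * (h * g + a * d))
      A := (q * f, p * g)
      B := (q, 0)
      u := ![![u11, u12], ![u21, u22]]
      v := ![![v11, v12], ![v21, v22]]
      hx := ?_
      hy := ?_
      hA := hfg
      hB := ?_
      hu := ?_
      hv := ?_
      h11 := ?_
      h12 := ?_
      h21 := ?_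
      h22 := ?_ }
  · show q * a * (p * g) ≠ p * b * (q * f)
    intro h0
    apply hag
    have h1 : (q * p) * (a * g) = (q * p) * (b * f) := by linear_combination h0
    exact mul_left_cancel₀ (mul_ne_zero hq0 hp0) h1
  · show (0 : ℤ) * (δ * p * (h * g + a * d)) ≠ δ * p * (c * g - d * f) * q
    rw [zero_mul]
    exact (mul_ne_zero (mul_ne_zero (mul_ne_zero hδ0 hp0) (sub_ne_zero.mpr hcg)) hq0).symm
  · intro h0
    apply hq0
    exact congrArg Prod.fst h0
  · intro i j
    fin_cases i <;> fin_cases j <;> assumption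
  · intro i j
    fin_cases i <;> fin_cases j <;> assumption
  · show Real.exp _ = (u11 : ℝ) / v11
    rw [r11]
    exact e11
  · show Real.exp _ = (u12 : ℝ) / v12
    rw [r12]
    exact e12
  · show Real.exp _ = (u21 : ℝ) / v21
    rw [r21]
    exact e21
  · show Real.exp _ = (u22 : ℝ) / v22
    rw [r22]
    exact e22

theorem pf_FOUR (hFTF : T_FTF) (hFIN : FT → False) : T_FOUR := fun π => hFIN (hFTF π)

end Pool.Agent.H25.EE5.MAIN
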