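import Pool.Agent.H59.EE.BND
import Pool.Agent.H54.EE5.CARD
import Pool.Agent.H68.EE5.CNT
import Pool.Agent.H1.EE5.DEGH
import Pool.Agent.H33.EE.DETF
import Pool.Agent.H69.EE5.DETU
import Pool.Agent.H34.EE5.DIFF
import Pool.Agent.H60.EE.DUAL
import Pool.Agent.H19.EE.ENT
import Pool.Agent.H86.EE5.ESY
import Pool.Agent.H51.EE.EVD
import Pool.Agent.H64.EE.EXB
import Pool.Agent.H56.EE.FAC
import Pool.Agent.H25.EE5.FIN
import Pool.Agent.H1.EE5.FOUR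
import Pool.Agent.H70.EE5.FTF
import Pool.Agent.H25.EE5.GAM
import Pool.Agent.H19.EE.GIN
import Pool.Agent.H50.EE.GP
import Pool.Agent.H68.EE5.KEYR
import Pool.Agent.H3.EE5.LEN
import Pool.Agent.H25.EE5.MAIN
import Pool.Agent.H59.EE.MIN
import Pool.Agent.H3.EE5.NFIN
import Pool.Agent.H6.EE5.NUM
import Pool.Agent.H19.EE.ONE
import Pool.Agent.H65.EE.PRF
import Pool.Agent.H33.EE.PW
import Pool.Agent.H89.EE5.RANK
import Pool.Agent.H65.EE.RES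
import Pool.Agent.H69.EE5.RL
import Pool.Agent.H19.EE.SEP
import Pool.Agent.H68.EE5.SML
import Pool.Agent.H34.EE5.SPR
import Pool.Agent.H49.EE5.STR
import Pool.Agent.H19.EE.SUMS
import Pool.Agent.H33.EE.TAIL
import Pool.Agent.H86.EE5.TAY
import Pool.Agent.H64.EE.UPP
import Pool.Agent.H25.EE.LNZ

/-! Assembly of the board ee_modules. -/

set_option autoImplicit false

namespace Pool.Agent.H25.EE5

open Pool.Agent.H25.EE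

theorem a_CARD : T_CARD := Pool.Agent.H54.EE5.CARD.pf_CARD
theorem a_LNZ : T_LNZ := Pool.Agent.H25.EE.pf_LNZ
theorem a_GIN : T_GIN := Pool.Agent.H19.EE.GIN.pf_GIN
theorem a_BND : T_BND := Pool.Agent.H59.EE.pf_BND a_LNZ a_CARD
theorem a_LEN : T_LEN := Pool.Agent.H3.EE5.LEN.pf_LEN a_CARD
theorem a_EXB : T_EXB := Pool.Agent.H64.EE.pf_EXB
theorem a_DIFF : T_DIFF := Pool.Agent.H34.EE5.DIFF.pf_DIFF a_LEN a_EXB a_CARD
theorem a_ENT : T_ENT := Pool.Agent.H19.EE.ENT.pf_ENT Pool.Agent.H86.EE5.TAY.pf_TAY a_LNZ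
theorem a_DETU : T_DETU := Pool.Agent.H69.EE5.DETU.pf_DETU
  (Pool.Agent.H33.EE.DETF.pf_DETF Pool.Agent.H86.EE5.ESY.pf_ESY)
theorem a_DEGH : T_DEGH :=
  Pool.Agent.H1.EE5.DEGH.pf_DEGH a_LEN a_EXB a_CARD Pool.Agent.H19.EE.SUMS.pf_SUMS
theorem a_UPP : T_UPP := Pool.Agent.H64.EE.pf_UPP a_ENT a_BND a_DIFF a_DETU
  Pool.Agent.H25.EE5.GAM.pf_GAM a_CARD Pool.Agent.H51.EE.pf_EVD
theorem a_SPR : T_SPR := Pool.Agent.H34.EE5.SPR.pf_SPR Pool.Agent.H25.EE.pf_MEAS a_LNZ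
theorem a_SEP : T_SEP :=
  Pool.Agent.H19.EE.SEP.pf_SEP a_SPR Pool.Agent.H49.EE5.STR.pf_STR a_CARD a_LNZ
theorem a_RL : T_RL := Pool.Agent.H69.EE5.RL.pf_RL
theorem a_RANK : T_RANK := Pool.Agent.H89.EE5.RANK.pf_RANK a_ENT a_BND a_DIFF a_RL
  (Pool.Agent.H60.EE.pf_DUAL a_RL) a_SPR a_SEP Pool.Agent.H33.EE.TAIL.pf_TAIL
  Pool.Agent.H6.EE5.NUM.pf_NUM a_CARD
theorem a_FTF : T_FTF := Pool.Agent.H70.EE5.FTF.pf_FTF a_RANK Pool.Agent.H59.EE.pf_MIN a_DEGH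
  a_UPP Pool.Agent.H51.EE.pf_EVD
theorem a_ONE : T_ONE := Pool.Agent.H19.EE.ONE.pf_ONE Pool.Agent.H65.EE.pf_RES
theorem a_PW : T_PW := Pool.Agent.H33.EE.PW.pf_PW a_GIN
theorem a_KEYR : T_KEYR := Pool.Agent.H68.EE5.KEYR.pf_KEYR a_ONE a_PW a_GIN
theorem a_SML : T_SML := Pool.Agent.H68.EE5.SML.pf_SML
  (Pool.Agent.H68.EE5.CNT.pf_CNT Pool.Agent.H56.EE.pf_FAC a_ONE)
theorem a_FIN : T_FIN := Pool.Agent.H25.EE5.FIN.pf_FIN
  (Pool.Agent.H65.EE.pf_PRF Pool.Agent.H50.EE.pf_GP) Pool.Agent.H56.EE.pf_FAC a_SML a_KEYR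
  Pool.Agent.H3.EE5.NFIN.pf_NFIN a_GIN

/-- the four exponentials are not all rational -/
theorem four : T_FOUR := Pool.Agent.H1.EE5.FOUR.pf_FOUR a_FTF a_FIN

/-- the theorem -/
theorem main : T_MAIN := Pool.Agent.H25.EE5.MAIN.pf_MAIN four a_LNZ

end Pool.Agent.H25.EE5
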